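import Mathlib

/-!
# Connected graphs whose minimal forcing sets all propagate in one round

For all `k ≥ 3` and `m ≥ 2` let `G k m` be the graph whose vertices are `m` copies of every nonzero
vector of `F_2^k`; two distinct vertices are adjacent if the dot product of their vectors is `1`.
The complement of a set `B` of vertices contains no nonempty subset with sum zero if `B` is a forcing
set (such a subset would stay white forever), and in that case the dual basis vectors show that the
whole complement is forced in the first round.  So the upper standard propagation time is `1`, but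
the graph is connected and co-connected, so it is not a standard fast join.
-/

namespace Pool.Agent.Results.MP_81d777_co.DotProductGraphs

open Set

variable {V : Type}

/-- The white vertices that can be forced by a blue vertex when exactly the vertices of `B` are
blue: `w` is the only white neighbour of some blue vertex `u`. -/
def forced (G : SimpleGraph V) (B : Set V) : Set V :=
  {w | ∃ u ∈ B, {x | G.Adj u x ∧ x ∉ B} = {w}}

/-- `B^{[i]}`, the blue vertices after `i` rounds. -/
def blue (G : SimpleGraph V) (B : Set V) : ℕ → Set V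
  | 0 => B
  | i + 1 => blue G B i ∪ forced G (blue G B i)

/-- `B^{(i)}`, the vertices forced in round `i` (`B` for `i = 0`). -/
def layer (G : SimpleGraph V) (B : Set V) : ℕ → Set V
  | 0 => B
  | i + 1 => forced G (blue G B i)

/-- `B` is a forcing set and its propagation time is `p`: `p` is the largest integer with
`B^{(p)} ≠ ∅`, and `B^{[p]}` consists of all vertices. -/
def HasTime (G : SimpleGraph V) (B : Set V) (p : ℕ) : Prop :=
  IsGreatest {i | (layer G B i).Nonempty} p ∧ blue G B p = univ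

/-- `B` is a (zero) forcing set. -/
def IsForcing (G : SimpleGraph V) (B : Set V) : Prop := ∃ p, HasTime G B p

/-- `B` is a forcing set and no proper subset of it is a forcing set. -/
def IsMinimalForcing (G : SimpleGraph V) (B : Set V) : Prop :=
  IsForcing G B ∧ ∀ B' : Set V, B' ⊂ B → ¬ IsForcing G B'

/-- The upper standard propagation time of `G` is `p`: the maximum of the propagation times of the
minimal forcing sets. -/
def UpperTime (G : SimpleGraph V) (p : ℕ) : Prop :=
  IsGreatest {q | ∃ B, IsMinimalForcing G B ∧ HasTime G B q} p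

/-- `G` is a standard fast join: `G` is complete on at least two vertices, or the join of `t ≥ 2`
graphs (the classes of `f`), each of which is an edgeless graph on at least two vertices or the
disjoint union of two complete graphs with at least two vertices each. -/
def IsStandardFastJoin [Fintype V] (G : SimpleGraph V) : Prop :=
  (2 ≤ Fintype.card V ∧ G = ⊤) ∨
  ∃ (t : ℕ) (f : V → Fin t), 2 ≤ t ∧ (∀ x y, f x ≠ f y → G.Adj x y) ∧
    ∀ i : Fin t,
      (2 ≤ {x | f x = i}.ncard ∧ ∀ x y, f x = i → f y = i → ¬ G.Adj x y) ∨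
      ∃ A B : Set V, A ∪ B = {x | f x = i} ∧ Disjoint A B ∧ 2 ≤ A.ncard ∧ 2 ≤ B.ncard ∧
        (∀ x ∈ A, ∀ y ∈ A, x ≠ y → G.Adj x y) ∧ (∀ x ∈ B, ∀ y ∈ B, x ≠ y → G.Adj x y) ∧
        ∀ x ∈ A, ∀ y ∈ B, ¬ G.Adj x y

/-- The vertices: `m` copies of each nonzero vector of `F_2^k`. -/
abbrev Vert (k m : ℕ) : Type := {x : Fin k → ZMod 2 // x ≠ 0} × Fin m

/-- Two distinct vertices are adjacent if the dot product of their vectors is `1`. -/
def dotGraph (k m : ℕ) : SimpleGraph (Vert k m) where
  Adj p q := p ≠ q ∧ (p.1.1 ⬝ᵥ q.1.1) = 1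
  symm := ⟨fun p q h => ⟨h.1.symm, by rw [dotProduct_comm]; exact h.2⟩⟩
  loopless := ⟨fun p h => h.1 rfl⟩

section
variable {k m : ℕ}

theorem adj_iff {p q : Vert k m} : (dotGraph k m).Adj p q ↔ p ≠ q ∧ (p.1.1 ⬝ᵥ q.1.1) = 1 := Iff.rfl

theorem zmod2 (a : ZMod 2) : a = 0 ∨ a = 1 := by revert a; decide

/-- A finite nonempty set of white vertices with sum zero is not touched by forces. -/
theorem zero_sum_white (C : Finset (Vert k m)) (hs : ∑ v ∈ C, v.1.1 = 0)
    (B : Set (Vert k m)) (hB : ∀ v ∈ C, v ∉ B) : ∀ v ∈ C, v ∉ forced (dotGraph k m) B := by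
  rintro v hv ⟨u, hu, he⟩
  have hsum : ∑ w ∈ C, (u.1.1 ⬝ᵥ w.1.1) = 0 := by
    have := congrArg (fun z => u.1.1 ⬝ᵥ z) hs
    simpa [dotProduct_sum] using this
  have h1 : ∀ w ∈ C, w ≠ v → (u.1.1 ⬝ᵥ w.1.1) = 0 := by
    intro w hw hne
    rcases zmod2 (u.1.1 ⬝ᵥ w.1.1) with h | h
    · exact h
    · exfalso
      have : w ∈ {x | (dotGraph k m).Adj u x ∧ x ∉ B} :=
        ⟨⟨fun e => hB w hw (e ▸ hu), h⟩, hB w hw⟩
      rw [he] at this
      exact hne this
  have h2 : (u.1.1 ⬝ᵥ v.1.1) = 1 := by
    have : v ∈ {x | (dotGraph k m).Adj u x ∧ x ∉ B} := by rw [he]; rfl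
    exact this.1.2
  rw [Finset.sum_eq_single_of_mem v hv (fun w hw hne => h1 w hw hne), h2] at hsum
  exact one_ne_zero hsum

theorem zero_sum_blue (C : Finset (Vert k m)) (hs : ∑ v ∈ C, v.1.1 = 0)
    (B : Set (Vert k m)) (hB : ∀ v ∈ C, v ∉ B) (i : ℕ) :
    ∀ v ∈ C, v ∉ blue (dotGraph k m) B i := by
  induction i with
  | zero => exact hB
  | succ i ih =>
    intro v hv h
    rcases h with h | h
    · exact ih v hv h
    · exact zero_sum_white C hs _ ih v hv h

/-- Some blue stage is everything: then no nonempty set of white vertices has sum zero. -/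
theorem no_zero_sum {B : Set (Vert k m)} {i : ℕ} (h : blue (dotGraph k m) B i = univ)
    (C : Finset (Vert k m)) (hC : C.Nonempty) (hB : ∀ v ∈ C, v ∉ B) : ∑ v ∈ C, v.1.1 ≠ 0 := by
  intro hs
  obtain ⟨v, hv⟩ := hC
  exact zero_sum_blue C hs B hB i v hv (by rw [h]; exact mem_univ _)

/-- Dual vectors. -/
theorem exists_dual {B : Set (Vert k m)}
    (h : ∀ C : Finset (Vert k m), C.Nonempty → (∀ v ∈ C, v ∉ B) → ∑ v ∈ C, v.1.1 ≠ 0)
    (w : Vert k m) (hw : w ∉ B) :
    ∃ u : Fin k → ZMod 2, (u ⬝ᵥ w.1.1) = 1 ∧ ∀ v, v ∉ B → v ≠ w → (u ⬝ᵥ v.1.1) = 0 := by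
  classical
  have hli : LinearIndependent (ZMod 2) (fun v : {v : Vert k m // v ∉ B} => (v.1.1.1 : Fin k → ZMod 2)) := by
    rw [linearIndependent_iff']
    intro s g hg i hi
    by_contra hne
    have hC : ∑ v ∈ (s.filter (fun i => g i ≠ 0)).map ⟨Subtype.val, Subtype.val_injective⟩,
        (v.1.1 : Fin k → ZMod 2) = 0 := by
      rw [Finset.sum_map]
      refine Eq.trans ?_ hg
      rw [Finset.sum_filter]
      refine Finset.sum_congr rfl fun j _ => ?_
      rcases zmod2 (g j) with h0 | h1
      · simp [h0]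
      · simp [h1]
    refine h _ ?_ ?_ hC
    · exact ⟨i.1, by simp only [Finset.mem_map, Finset.mem_filter]; exact ⟨i, ⟨hi, hne⟩, rfl⟩⟩
    · intro v hv
      simp only [Finset.mem_map, Finset.mem_filter, Function.Embedding.coeFn_mk] at hv
      obtain ⟨j, _, rfl⟩ := hv
      exact j.2
  have hns := hli.notMem_span_image (s := {v | v ≠ ⟨w, hw⟩}) (x := ⟨w, hw⟩) (by simp)
  obtain ⟨f, hf, hf0⟩ := Submodule.exists_dual_map_eq_bot_of_notMem hns inferInstance
  have hrep : ∀ x : Fin k → ZMod 2, f x = (fun i => f (Pi.single i 1)) ⬝ᵥ x := by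
    intro x
    rw [LinearMap.pi_apply_eq_sum_univ f x]
    simp only [dotProduct, smul_eq_mul]
    refine Finset.sum_congr rfl fun i _ => ?_
    rw [mul_comm]
    congr 2
    funext j
    simp [Pi.single_apply, eq_comm]
  refine ⟨fun i => f (Pi.single i 1), ?_, ?_⟩
  · rw [← hrep]
    rcases zmod2 (f w.1.1) with h0 | h1
    · exact absurd h0 hf
    · exact h1
  · intro v hv hne
    rw [← hrep]
    have hm : (v.1.1 : Fin k → ZMod 2) ∈ Submodule.span (ZMod 2)
        ((fun v : {v : Vert k m // v ∉ B} => (v.1.1.1 : Fin k → ZMod 2)) '' {v | v ≠ ⟨w, hw⟩}) :=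
      Submodule.subset_span ⟨⟨v, hv⟩, by simpa [Subtype.ext_iff] using hne, rfl⟩
    have : f v.1.1 ∈ (Submodule.map f (Submodule.span (ZMod 2)
        ((fun v : {v : Vert k m // v ∉ B} => (v.1.1.1 : Fin k → ZMod 2)) '' {v | v ≠ ⟨w, hw⟩}))) :=
      Submodule.mem_map_of_mem hm
    rw [hf0] at this
    exact (Submodule.mem_bot (ZMod 2)).mp this

/-- If no nonempty set of white vertices has sum zero, everything is blue after one round. -/
theorem one_round (hm : 2 ≤ m) {B : Set (Vert k m)}
    (h : ∀ C : Finset (Vert k m), C.Nonempty → (∀ v ∈ C, v ∉ B) → ∑ v ∈ C, v.1.1 ≠ 0) :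
    blue (dotGraph k m) B 1 = univ := by
  classical
  refine eq_univ_of_forall fun w => ?_
  by_cases hw : w ∈ B
  · exact Or.inl hw
  right
  obtain ⟨u, hu1, hu0⟩ := exists_dual h w hw
  have hune : u ≠ 0 := by
    rintro rfl
    simp at hu1
  -- one of two copies of `u` is blue
  have hcopy : ∃ j : Fin m, ((⟨u, hune⟩, j) : Vert k m) ∈ B := by
    by_contra hno
    push Not at hno
    let p : Vert k m := (⟨u, hune⟩, ⟨0, by omega⟩)
    let q : Vert k m := (⟨u, hune⟩, ⟨1, by omega⟩)
    have hpq : p ≠ q := by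
      intro e
      have := congrArg (fun z : Vert k m => z.2.val) e
      simp [p, q] at this
    refine h {p, q} ⟨p, by simp⟩ ?_ ?_
    · intro v hv
      simp only [Finset.mem_insert, Finset.mem_singleton] at hv
      rcases hv with rfl | rfl
      · exact hno _
      · exact hno _
    · rw [Finset.sum_pair hpq]
      funext i
      change u i + u i = 0
      rcases zmod2 (u i) with e | e <;> rw [e] <;> decide
  obtain ⟨j, hj⟩ := hcopy
  refine ⟨_, hj, ?_⟩
  ext x
  simp only [mem_ofPred_eq, mem_singleton_iff, adj_iff]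
  constructor
  · rintro ⟨⟨_, hx⟩, hxB⟩
    by_contra hne
    have := hu0 x hxB hne
    rw [this] at hx
    exact zero_ne_one hx
  · rintro rfl
    exact ⟨⟨fun e => hw (e ▸ hj), hu1⟩, hw⟩

theorem one_round_of_blue (hm : 2 ≤ m) {B : Set (Vert k m)} {i : ℕ}
    (h : blue (dotGraph k m) B i = univ) : blue (dotGraph k m) B 1 = univ :=
  one_round hm fun C hC hB => no_zero_sum h C hC hB

theorem blue_mono {V : Type} (G : SimpleGraph V) (B : Set V) (i : ℕ) :
    blue G B i ⊆ blue G B (i + 1) := fun _ h => Or.inl h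

theorem forced_univ {V : Type} (G : SimpleGraph V) : forced G univ = ∅ := by
  ext w
  simp only [forced, mem_univ, not_true_eq_false, and_false, true_and, mem_ofPred_eq,
    mem_empty_iff_false, iff_false]
  rintro ⟨u, h⟩
  have : w ∈ ({x | False} : Set V) := by rw [h]; rfl
  exact this

theorem blue_univ {V : Type} (G : SimpleGraph V) (B : Set V) (h : blue G B 1 = univ) :
    ∀ i, 1 ≤ i → blue G B i = univ := by
  intro i hi
  induction i, hi using Nat.le_induction with
  | base => exact h
  | succ i _ ih => exact eq_univ_of_univ_subset (ih ▸ blue_mono G B i)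

theorem layer_empty {V : Type} (G : SimpleGraph V) (B : Set V) (h : blue G B 1 = univ) (i : ℕ)
    (hi : 2 ≤ i) : layer G B i = ∅ := by
  obtain ⟨j, rfl⟩ : ∃ j, i = j + 1 := ⟨i - 1, by omega⟩
  change forced G (blue G B j) = ∅
  rw [blue_univ G B h j (by omega), forced_univ]

theorem hasTime_of {V : Type} (G : SimpleGraph V) (B : Set V) (h : blue G B 1 = univ)
    (hB : B ≠ univ) : HasTime G B 1 := by
  refine ⟨⟨?_, ?_⟩, h⟩
  · change (forced G B).Nonempty
    rw [nonempty_iff_ne_empty]
    intro he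
    apply hB
    rw [← h]
    change B = B ∪ forced G B
    rw [he, union_empty]
  · intro i hi
    by_contra hlt
    have : layer G B i = ∅ := layer_empty G B h i (by omega)
    rw [mem_ofPred_eq, this] at hi
    exact not_nonempty_empty hi

theorem hasTime_le (hm : 2 ≤ m) {B : Set (Vert k m)} {p : ℕ} (h : HasTime (dotGraph k m) B p) :
    p ≤ 1 := by
  by_contra hlt
  have h1 := one_round_of_blue hm h.2
  have h2 := h.1.1
  rw [mem_ofPred_eq, layer_empty _ _ h1 p (by omega)] at h2
  exact not_nonempty_empty h2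

/-- For `x ≠ 0` some `u` has dot product `1` with `x`; for `x ≠ y` the same `u` works for both. -/
theorem exists_common (x y : Fin k → ZMod 2) (hx : x ≠ 0) (hy : y ≠ 0) :
    ∃ u : Fin k → ZMod 2, (u ⬝ᵥ x) = 1 ∧ (u ⬝ᵥ y) = 1 := by
  classical
  obtain ⟨i, hi⟩ : ∃ i, x i ≠ 0 := Function.ne_iff.mp hx
  obtain ⟨j, hj⟩ : ∃ j, y j ≠ 0 := Function.ne_iff.mp hy
  have hi1 : x i = 1 := (zmod2 _).resolve_left hi
  have hj1 : y j = 1 := (zmod2 _).resolve_left hj
  rcases zmod2 (y i) with h | h
  · rcases zmod2 (x j) with h' | h'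
    · refine ⟨Pi.single i 1 + Pi.single j 1, ?_, ?_⟩
      · rw [add_dotProduct]; simp [hi1, h']
      · rw [add_dotProduct]; simp [hj1, h]
    · exact ⟨Pi.single j 1, by simp [h'], by simp [hj1]⟩
  · exact ⟨Pi.single i 1, by simp [hi1], by simp [h]⟩

theorem connected (hk : 1 ≤ k) (hm : 2 ≤ m) : (dotGraph k m).Connected := by
  have key : ∀ p q : Vert k m, (p.1.1 ⬝ᵥ q.1.1) = 1 → (dotGraph k m).Reachable p q := by
    intro p q h
    by_cases e : p = q
    · rw [e]
    · exact SimpleGraph.Adj.reachable ⟨e, h⟩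
  have : Nonempty (Vert k m) :=
    ⟨(⟨fun _ => 1, fun e => one_ne_zero (congrFun e ⟨0, by omega⟩)⟩, ⟨0, by omega⟩)⟩
  refine SimpleGraph.Connected.mk ?_
  intro p q
  obtain ⟨u, hu1, hu2⟩ := exists_common p.1.1 q.1.1 p.1.2 q.1.2
  have hune : u ≠ 0 := by
    rintro rfl
    simp at hu1
  let r : Vert k m := (⟨u, hune⟩, ⟨0, by omega⟩)
  exact (key p r (by rw [dotProduct_comm]; exact hu1)).trans (key r q hu2)

/-- A common nonzero vector orthogonal to `x` and `y` (for `k ≥ 3`). -/
theorem exists_orth (hk : 3 ≤ k) (x y : Fin k → ZMod 2) :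
    ∃ z : Fin k → ZMod 2, z ≠ 0 ∧ (z ⬝ᵥ x) = 0 ∧ (z ⬝ᵥ y) = 0 := by
  classical
  let φ : (Fin k → ZMod 2) →ₗ[ZMod 2] (Fin 2 → ZMod 2) :=
    { toFun := fun z => ![z ⬝ᵥ x, z ⬝ᵥ y]
      map_add' := by intro a b; ext i; fin_cases i <;> simp [add_dotProduct]
      map_smul' := by intro c a; ext i; fin_cases i <;> simp [smul_dotProduct] }
  have hker : LinearMap.ker φ ≠ ⊥ := by
    apply LinearMap.ker_ne_bot_of_finrank_lt
    simp only [Module.finrank_fin_fun]
    omega
  obtain ⟨z, hz, hz0⟩ := (Submodule.ne_bot_iff _).mp hker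
  rw [LinearMap.mem_ker] at hz
  refine ⟨z, hz0, ?_, ?_⟩
  · exact congrFun hz 0
  · exact congrFun hz 1

theorem not_fastJoin (hk : 3 ≤ k) (hm : 2 ≤ m) : ¬ IsStandardFastJoin (dotGraph k m) := by
  classical
  rintro (⟨_, htop⟩ | ⟨t, f, ht, hf, hparts⟩)
  · -- two orthogonal vertices
    let a : Vert k m := (⟨fun _ => 1, fun e => one_ne_zero (congrFun e ⟨0, by omega⟩)⟩, ⟨0, by omega⟩)
    obtain ⟨z, hz0, hz1, -⟩ := exists_orth hk a.1.1 a.1.1
    -- choose the copy of `z` different from `a`
    let b : Vert k m := (⟨z, hz0⟩, ⟨1, by omega⟩)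
    have hab : a ≠ b := by
      intro e
      have := congrArg (fun w : Vert k m => w.2.val) e
      simp [a, b] at this
    have hadj : (dotGraph k m).Adj a b := by rw [htop]; exact hab
    have h1 := hadj.2
    rw [dotProduct_comm] at h1
    change (z ⬝ᵥ a.1.1) = 1 at h1
    rw [hz1] at h1
    exact zero_ne_one h1
  · -- `f` is constant
    have hconst : ∀ p q : Vert k m, f p = f q := by
      have step : ∀ p q : Vert k m, (p.1.1 ⬝ᵥ q.1.1) = 0 → f p = f q := by
        intro p q h
        by_contra hne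
        have h1 := (hf p q hne).2
        rw [h] at h1
        exact zero_ne_one h1
      intro p q
      obtain ⟨z, hz0, hz1, hz2⟩ := exists_orth hk p.1.1 q.1.1
      let r : Vert k m := (⟨z, hz0⟩, ⟨0, by omega⟩)
      exact (step r p hz1).symm.trans (step r q hz2)
    have hne : ∀ i : Fin t, ∃ p, f p = i := by
      intro i
      rcases hparts i with ⟨h2, _⟩ | ⟨A, B, hAB, _, hA, _⟩
      · have : ({x | f x = i}).Nonempty := by
          apply Set.nonempty_of_ncard_ne_zero
          omega
        exact this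
      · have : A.Nonempty := by
          apply Set.nonempty_of_ncard_ne_zero
          omega
        obtain ⟨p, hp⟩ := this
        exact ⟨p, by
          have : p ∈ A ∪ B := Or.inl hp
          rw [hAB] at this
          exact this⟩
    obtain ⟨p, hp⟩ := hne ⟨0, by omega⟩
    obtain ⟨q, hq⟩ := hne ⟨1, by omega⟩
    have := hconst p q
    rw [hp, hq] at this
    have := congrArg Fin.val this
    simp at this

theorem upperTime (hk : 1 ≤ k) (hm : 2 ≤ m) : UpperTime (dotGraph k m) 1 := by
  classical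
  constructor
  · -- a forcing set different from the whole vertex set
    let a : Vert k m := (⟨fun _ => 1, fun e => one_ne_zero (congrFun e ⟨0, by omega⟩)⟩, ⟨0, by omega⟩)
    have h0 : blue (dotGraph k m) {a}ᶜ 1 = univ := by
      refine one_round hm fun C hC hB hs => ?_
      have hCa : C = {a} := by
        refine Finset.eq_singleton_iff_nonempty_unique_mem.mpr ⟨hC, fun v hv => ?_⟩
        have := hB v hv
        simpa using this
      rw [hCa, Finset.sum_singleton] at hs
      exact a.1.2 hs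
    have hne0 : ({a}ᶜ : Set (Vert k m)) ≠ univ := by
      intro e
      have : a ∈ ({a}ᶜ : Set (Vert k m)) := by rw [e]; exact mem_univ _
      exact this rfl
    have hF0 : IsForcing (dotGraph k m) {a}ᶜ := ⟨1, hasTime_of _ _ h0 hne0⟩
    obtain ⟨B, hBle, hBmin⟩ := (Set.toFinite {B : Set (Vert k m) | IsForcing (dotGraph k m) B}).exists_le_minimal hF0
    have hBF : IsForcing (dotGraph k m) B := hBmin.prop
    have hBne : B ≠ univ := by
      intro e
      apply hne0
      exact eq_univ_of_univ_subset (e ▸ hBle)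
    obtain ⟨p, hp⟩ := hBF
    refine ⟨B, ⟨⟨p, hp⟩, fun B' hB' hF' => ?_⟩, hasTime_of _ _ (one_round_of_blue hm hp.2) hBne⟩
    have := hBmin.le_of_le hF' hB'.1
    exact hB'.2 this
  · rintro q ⟨B, _, hq⟩
    exact hasTime_le hm hq

end

/-- For all `k ≥ 3` and `m ≥ 2` the graph whose vertices are `m` copies of every nonzero vector of
`F_2^k`, distinct vertices being adjacent if their dot product is `1`, is connected, its upper
standard propagation time is `1`, and it is not a standard fast join. In particular (`k = 3`,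
`m = 2`, 14 vertices) the answer to Q1 is negative. -/
theorem result :
    (∀ k m : ℕ, 3 ≤ k → 2 ≤ m → (dotGraph k m).Connected ∧ UpperTime (dotGraph k m) 1 ∧
      ¬ IsStandardFastJoin (dotGraph k m)) ∧
    ¬ ∀ (V : Type) [Fintype V] (G : SimpleGraph V), G.Connected → UpperTime G 1 →
      IsStandardFastJoin G := by
  have h1 : ∀ k m : ℕ, 3 ≤ k → 2 ≤ m → (dotGraph k m).Connected ∧ UpperTime (dotGraph k m) 1 ∧
      ¬ IsStandardFastJoin (dotGraph k m) := fun k m hk hm =>
    ⟨connected (by omega) hm, upperTime (by omega) hm, not_fastJoin hk hm⟩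
  refine ⟨h1, fun h => ?_⟩
  obtain ⟨hc, hu, hn⟩ := h1 3 2 le_rfl le_rfl
  exact hn (h _ _ hc hu)

end Pool.Agent.Results.MP_81d777_co.DotProductGraphs
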